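import Pool.Agent.TH88.SI.Class

/-!
# MP_3bdc7b_an: strongly irreducible SFTs over free products are surjunctive

Let `𝒟` be the class of groups over which periodic configurations are dense in every strongly
irreducible subshift of finite type.  If every finite subset of `G` lies in a retract of `G` that is
virtually a subgroup of a free product of groups each of which is virtually free, virtually a
subgroup of `ℤ²`, or in `𝒟`, then every strongly irreducible subshift of finite type over `G` is
surjunctive.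
-/

namespace Pool.Agent.Results.MP_3bdc7b_an.FreeProductsSurjunctive

open Pool.Agent.TH88.SI

/-- `X` is a subshift of finite type for the shift `(g x)(h) = x (g⁻¹ h)`. -/
def IsSFT {G A : Type} [Group G] (X : Set (G → A)) : Prop :=
  ∃ (D : Finset G) (P : Set (D → A)), X = {x | ∀ g : G, (fun d : D => x (g * d.1)) ∈ P}

/-- `X` is strongly irreducible. -/
def StronglyIrreducible {G A : Type} [Group G] (X : Set (G → A)) : Prop :=
  ∃ Δ : Finset G, ∀ Ω₁ Ω₂ : Finset G, (∀ w ∈ Ω₁, ∀ d ∈ Δ, w * d ∉ Ω₂) →
    ∀ x₁ ∈ X, ∀ x₂ ∈ X, ∃ z ∈ X, (∀ w ∈ Ω₁, z w = x₁ w) ∧ (∀ w ∈ Ω₂, z w = x₂ w)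

/-- `x` has a finite orbit under the shift. -/
def Periodic {G A : Type} [Group G] (x : G → A) : Prop :=
  (Set.range (fun g : G => fun h : G => x (g⁻¹ * h))).Finite

/-- the class `𝒟`: periodic configurations are dense in every strongly irreducible SFT. -/
def DensePeriodic (G : Type) [Group G] : Prop :=
  ∀ (A : Type) [Finite A] (X : Set (G → A)), IsSFT X → StronglyIrreducible X →
    ∀ x ∈ X, ∀ F : Finset G, ∃ y ∈ X, Periodic y ∧ ∀ h ∈ F, y h = x h

/-- `K` has a free subgroup of finite index. -/
def VirtuallyFree (K : Type) [Group K] : Prop :=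
  ∃ H : Subgroup K, H.FiniteIndex ∧ IsFreeGroup H

/-- `K` has a finite index subgroup isomorphic to a subgroup of `ℤ²`. -/
def VirtuallyInZ2 (K : Type) [Group K] : Prop :=
  ∃ (L : Subgroup K) (f : L →* Multiplicative (ℤ × ℤ)), L.FiniteIndex ∧ Function.Injective f

/-- `K` has a finite index subgroup that embeds in a free product of groups each of which is
virtually free, virtually in `ℤ²`, or in `𝒟`. -/
def VirtuallyInFreeProduct (K : Type) [Group K] : Prop :=
  ∃ (H : Subgroup K) (ι : Type) (L : ι → Type) (_ : ∀ i, Group (L i))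
    (φ : H →* Monoid.CoprodI L), H.FiniteIndex ∧ Function.Injective φ ∧
      ∀ i, VirtuallyFree (L i) ∨ VirtuallyInZ2 (L i) ∨ DensePeriodic (L i)

/-- `τ` commutes with the shift. -/
def Equivariant {G A : Type} [Group G] {X : Set (G → A)} (τ : X → X) : Prop :=
  ∀ (g : G) (x y : X), (∀ h, y.1 h = x.1 (g⁻¹ * h)) → ∀ h, (τ y).1 h = (τ x).1 (g⁻¹ * h)

theorem result (G : Type) [Group G]
    (hG : ∀ C : Finset G, ∃ K : Subgroup G, (∀ c ∈ C, c ∈ K) ∧
      (∃ π : G →* K, ∀ k : K, π (k : G) = k) ∧ VirtuallyInFreeProduct K)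
    (A : Type) [Finite A] [TopologicalSpace A] [DiscreteTopology A]
    (X : Set (G → A)) (hX : IsSFT X) (hSI : StronglyIrreducible X)
    (τ : X → X) (hτ : Continuous τ) (he : Equivariant τ) (hinj : Function.Injective τ) :
    Function.Surjective τ := by
  have hDP : DP G := by
    refine DP_retract fun C hC => ?_
    obtain ⟨K, hCK, ⟨π, hπ⟩, ⟨H, ι, L, _, φ, hH, hφ, hL⟩⟩ := hG hC.toFinset
    refine ⟨K, inferInstance, K.subtype, π, hπ, ?_, DP_virt hH (fun i => ?_) φ hφ⟩
    · intro c hc
      exact ⟨⟨c, hCK c (hC.mem_toFinset.2 hc)⟩, rfl⟩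
    · rcases hL i with h | h | h
      · exact DP_vfree h
      · exact DP_vZ2 h
      · exact DP_of_left h
  exact surj_of_dense A X (closed_of_sft A X hX) (dense_left hDP A X hX hSI) τ hτ he hinj

end Pool.Agent.Results.MP_3bdc7b_an.FreeProductsSurjunctive
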