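import Pool.Agent.TH88.SI.Tssm

/-!
# MP_3bdc7b_an: subshifts with strong spatial mixing over residually finite groups

Strong spatial mixing (also called topological strong spatial mixing) is strong irreducibility
relative to an arbitrary common finite pattern.  Over every residually finite group, every subshift
with strong spatial mixing has dense periodic configurations and is surjunctive.
-/

namespace Pool.Agent.Results.MP_3bdc7b_an.StrongSpatialMixing

/-- `G` is residually finite. -/
def ResiduallyFinite (G : Type) [Group G] : Prop :=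
  ∀ g : G, g ≠ 1 → ∃ H : Subgroup G, H.FiniteIndex ∧ g ∉ H

/-- `X` is a subshift for the shift `(g x)(h) = x (g⁻¹ h)`. -/
def IsSubshift {G A : Type} [Group G] [TopologicalSpace A] (X : Set (G → A)) : Prop :=
  IsClosed X ∧ ∀ g : G, ∀ x ∈ X, (fun h => x (g⁻¹ * h)) ∈ X

/-- strong spatial mixing: two configurations of `X` that agree on the finite set `W` can be joined
along any finite sets `U`, `V` with `U Δ ∩ V = ∅`, keeping the common values on `W`.  For `W = ∅`
this is strong irreducibility. -/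
def SpatialMixing {G A : Type} [Group G] (X : Set (G → A)) : Prop :=
  ∃ Δ : Finset G, ∀ U V W : Finset G, (∀ u ∈ U, ∀ d ∈ Δ, u * d ∉ V) →
    ∀ x₁ ∈ X, ∀ x₂ ∈ X, (∀ w ∈ W, x₁ w = x₂ w) →
      ∃ z ∈ X, (∀ u ∈ U, z u = x₁ u) ∧ (∀ v ∈ V, z v = x₂ v) ∧ ∀ w ∈ W, z w = x₁ w

/-- `x` has a finite orbit under the shift. -/
def Periodic {G A : Type} [Group G] (x : G → A) : Prop :=
  (Set.range (fun g : G => fun h : G => x (g⁻¹ * h))).Finite

/-- `τ` commutes with the shift. -/
def Equivariant {G A : Type} [Group G] {X : Set (G → A)} (τ : X → X) : Prop :=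
  ∀ (g : G) (x y : X), (∀ h, y.1 h = x.1 (g⁻¹ * h)) → ∀ h, (τ y).1 h = (τ x).1 (g⁻¹ * h)

theorem result (G : Type) [Group G] (hG : ResiduallyFinite G)
    (A : Type) [Finite A] [TopologicalSpace A] [DiscreteTopology A]
    (X : Set (G → A)) (hX : IsSubshift X) (hS : SpatialMixing X) :
    (∀ x ∈ X, ∀ F : Finset G, ∃ y ∈ X, Periodic y ∧ ∀ h ∈ F, y h = x h) ∧
      ∀ τ : X → X, Continuous τ → Equivariant τ → Function.Injective τ → Function.Surjective τ := by
  classical
  obtain ⟨hcl, hinv⟩ := hX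
  obtain ⟨Δ, hΔ⟩ := hS
  have hd := Pool.Agent.TH88.SI.Tssm.dense hG X hcl hinv (insert 1 Δ) (Finset.mem_insert_self _ _)
    (fun u V W huV x₁ hx₁ x₂ hx₂ hW => by
      obtain ⟨z, hz, h1, h2, h3⟩ := hΔ {u} V W (by
        intro u' hu' d hd
        rw [Finset.mem_singleton.1 hu']
        exact huV d (Finset.mem_insert_of_mem hd)) x₁ hx₁ x₂ hx₂ hW
      exact ⟨z, hz, h1 u (Finset.mem_singleton_self u), h3, h2⟩)
  exact ⟨hd, fun τ hτ he hinj =>
    Pool.Agent.TH88.SI.surj_of_dense A X hcl hd τ hτ he hinj⟩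

end Pool.Agent.Results.MP_3bdc7b_an.StrongSpatialMixing
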